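import Pool.Agent.Helper96.SE.Goals

/-! Project SE, packet APP: approximation of 1 by S-units, with coprime numerator and
denominator. -/

open NumberField Height IsDedekindDomain
open Pool.Agent.Results.MP_e44225_nt.SUnitDisproof Pool.Agent.Helper96.SE

namespace Pool.Agent.Helper53.SE

universe u

variable {k : Type u} [Field k] [NumberField k]

/-- the generators -/
lemma exists_family' (T : Finset (FinitePlace k)) :
    ∃ g : (Fin (Units.rank k) ⊕ T) → 𝓞 k,
      (∀ i, g i ≠ 0) ∧
      (∀ w : FinitePlace k, w ∉ T → ∀ i, w (g i : k) = 1) ∧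
      (∀ a b : (Fin (Units.rank k) ⊕ T) → ℕ, ∏ i, g i ^ a i = ∏ i, g i ^ b i → a = b) ∧
      (∀ w : FinitePlace k, (∀ i, w (g i : k) = 1) ∨ ∃ i₀, ∀ i, i ≠ i₀ → w (g i : k) = 1) := by
  classical
  choose p hp1 hp0 hp using fun w : FinitePlace k => exists_gen w
  refine ⟨Sum.elim (fun j => ((Units.fundSystem k j : (𝓞 k)ˣ) : 𝓞 k)) (fun t => p t),
    ?_, ?_, ?_, ?_⟩
  · rintro (j | t)
    · simp
    · intro h0
      apply hp0 t
      have : p t = 0 := h0
      simp [this]
  · intro w hw
    rintro (j | t)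
    · exact unit_place w _
    · refine hp t w ?_
      rintro rfl
      exact hw t.2
  · intro a b hab
    simp only [Fintype.prod_sum_type, Sum.elim_inl, Sum.elim_inr] at hab
    -- first the finite places
    have key : ∀ c : (Fin (Units.rank k) ⊕ T) → ℕ, ∀ t : T,
        (t : FinitePlace k) (((∏ j, ((Units.fundSystem k j : (𝓞 k)ˣ) : 𝓞 k) ^ c (Sum.inl j)) *
          ∏ t' : T, p t' ^ c (Sum.inr t') : 𝓞 k) : k) =
            (t : FinitePlace k) (p t : k) ^ c (Sum.inr t) := by
      intro c t
      push_cast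
      rw [map_mul, map_prod, map_prod]
      have h1 : ∏ j, (t : FinitePlace k)
          ((((Units.fundSystem k j : (𝓞 k)ˣ) : 𝓞 k) : k) ^ c (Sum.inl j)) = 1 := by
        apply Finset.prod_eq_one
        intro j _
        rw [map_pow, unit_place, one_pow]
      rw [h1, one_mul, Finset.prod_eq_single t]
      · rw [map_pow]
      · intro t' _ ht'
        rw [map_pow, hp t' t (fun h => ht' (Subtype.ext h.symm)), one_pow]
      · simp
    have hT : ∀ t : T, a (Sum.inr t) = b (Sum.inr t) := by
      intro t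
      have h1 := key a t
      have h2 := key b t
      rw [hab, h2] at h1
      have h3 : 0 < (t : FinitePlace k) (p t : k) :=
        lt_of_le_of_ne (apply_nonneg _ _) (Ne.symm (hp0 t))
      exact (pow_right_injective₀ h3 (hp1 t).ne h1).symm
    have hprod : ∏ t' : T, p t' ^ a (Sum.inr t') = ∏ t' : T, p t' ^ b (Sum.inr t') := by
      refine Finset.prod_congr rfl fun t _ => by rw [hT t]
    rw [hprod] at hab
    have hne : ∏ t' : T, p t' ^ b (Sum.inr t') ≠ 0 := by
      rw [Finset.prod_ne_zero_iff]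
      intro t _
      apply pow_ne_zero
      intro h0
      apply hp0 t
      simp [h0]
    have hu := mul_right_cancel₀ hne hab
    have hu' : ∏ j, Units.fundSystem k j ^ a (Sum.inl j) =
        ∏ j, Units.fundSystem k j ^ b (Sum.inl j) := by
      apply Units.ext
      push_cast
      exact hu
    have hF := fund_indep (fun j => a (Sum.inl j)) (fun j => b (Sum.inl j)) hu'
    funext i
    rcases i with (j | t)
    · exact congrFun hF j
    · exact hT t
  · intro w
    by_cases hw : w ∈ T
    · right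
      refine ⟨Sum.inr ⟨w, hw⟩, ?_⟩
      rintro (j | t) hi
      · exact unit_place w _
      · refine hp t w ?_
        rintro rfl
        exact hi rfl
    · left
      rintro (j | t)
      · exact unit_place w _
      · refine hp t w ?_
        rintro rfl
        exact hw t.2

theorem app : APP.{u} := by
  intro k _ _ T w₀ hw₀ hρ
  classical
  obtain ⟨g, hg0, hg1, hgind, hg4⟩ := exists_family' T
  set N : ℕ := Ideal.absNorm w₀.maximalIdeal.asIdeal with hN
  have hN1 : 1 < N := HeightOneSpectrum.one_lt_absNorm w₀.maximalIdeal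
  set ρ : ℕ := Units.rank k + T.card with hρdef
  refine ⟨∑ i, logHeight₁ (g i : k), Finset.sum_nonneg fun i _ => zero_le_logHeight₁ _, ?_⟩
  intro m
  set X : ℝ := (N : ℝ) ^ ((m : ℝ) / (ρ : ℝ)) with hX
  have hN0 : (0:ℝ) < N := by exact_mod_cast (by omega : 0 < N)
  have hXpos : 0 < X := Real.rpow_pos_of_pos hN0 _
  set A : ℕ := ⌊X⌋₊ with hA
  have hAX : (A : ℝ) ≤ X := Nat.floor_le hXpos.le
  have hXA : X < A + 1 := Nat.lt_floor_add_one X
  have hXρ : X ^ ρ = (N : ℝ) ^ m := by
    rw [hX, ← Real.rpow_natCast, ← Real.rpow_mul hN0.le, div_mul_cancel₀, Real.rpow_natCast]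
    exact_mod_cast hρ.ne'
  have hcard : N ^ m < (A + 1) ^ ρ := by
    have : ((N ^ m : ℕ) : ℝ) < (((A + 1) ^ ρ : ℕ) : ℝ) := by
      push_cast
      rw [← hXρ]
      exact pow_lt_pow_left₀ hXA hXpos.le hρ.ne'
    exact_mod_cast this
  -- pigeonhole
  set I : Ideal (𝓞 k) := w₀.maximalIdeal.asIdeal ^ m with hI
  have hInorm : Nat.card (𝓞 k ⧸ I) = N ^ m := by
    rw [← Submodule.cardQuot_apply, ← Ideal.absNorm_apply, hI, map_pow]
  have : Finite (𝓞 k ⧸ I) := by
    apply Nat.finite_of_card_ne_zero
    rw [hInorm]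
    exact pow_ne_zero _ (by omega)
  have : Fintype (𝓞 k ⧸ I) := Fintype.ofFinite _
  let f : ((Fin (Units.rank k) ⊕ T) → Fin (A + 1)) → 𝓞 k ⧸ I :=
    fun a => Ideal.Quotient.mk I (∏ i, g i ^ (a i : ℕ))
  have hlt : Fintype.card (𝓞 k ⧸ I) < Fintype.card ((Fin (Units.rank k) ⊕ T) → Fin (A + 1)) := by
    rw [← Nat.card_eq_fintype_card, hInorm]
    simp only [Fintype.card_fun, Fintype.card_sum, Fintype.card_fin, Fintype.card_coe]
    exact hcard
  obtain ⟨a, b, hab, hfab⟩ := Fintype.exists_ne_map_eq_of_card_lt f hlt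
  have hsub : (∏ i, g i ^ (a i : ℕ)) - (∏ i, g i ^ (b i : ℕ)) ∈ I := by
    rw [← Ideal.Quotient.eq]
    exact hfab
  -- monomials
  set P : (((Fin (Units.rank k) ⊕ T)) → ℕ) → 𝓞 k := fun a => ∏ i, g i ^ a i with hP
  have hPne' : ∀ a, P a ≠ 0 := by
    intro a
    rw [hP]
    simp only
    rw [Finset.prod_ne_zero_iff]
    intro i _
    exact pow_ne_zero _ (hg0 i)
  have hPne : ∀ a, (P a : k) ≠ 0 := by
    intro a
    simpa using hPne' a
  have hPval : ∀ a, ∀ w : FinitePlace k, w (P a : k) = ∏ i, w (g i : k) ^ a i := by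
    intro a w
    rw [hP]
    push_cast
    rw [map_prod]
    exact Finset.prod_congr rfl fun i _ => by rw [map_pow]
  have hPw : ∀ a, ∀ w : FinitePlace k, w ∉ T → w (P a : k) = 1 := by
    intro a w hw
    rw [hPval]
    apply Finset.prod_eq_one
    intro i _
    rw [hg1 w hw i, one_pow]
  set a' : (Fin (Units.rank k) ⊕ T) → ℕ := fun i => (a i : ℕ) with ha'
  set b' : (Fin (Units.rank k) ⊕ T) → ℕ := fun i => (b i : ℕ) with hb'
  have hne' : a' ≠ b' := by
    intro h
    apply hab
    funext i
    exact Fin.ext (congrFun h i)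
  set r := P (fun i => a' i - b' i) with hr
  set s := P (fun i => b' i - a' i) with hs
  have hcross : r * P b' = s * P a' := by
    rw [hr, hs, hP]
    rw [← Finset.prod_mul_distrib, ← Finset.prod_mul_distrib]
    refine Finset.prod_congr rfl fun i _ => ?_
    rw [← pow_add, ← pow_add]
    have h5 : a' i - b' i + b' i = b' i - a' i + a' i := by omega
    exact congrArg (fun e => g i ^ e) h5
  have hquot : (r : k) / (s : k) = (P a' : k) / (P b' : k) := by
    rw [div_eq_div_iff (hPne _) (hPne _)]
    have h1 : ((r * P b' : 𝓞 k) : k) = ((s * P a' : 𝓞 k) : k) := by rw [hcross]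
    push_cast at h1
    rw [h1, mul_comm]
  refine ⟨r, s, hPne' _, hPne' _, ?_, ?_, ?_, ?_, ?_⟩
  · intro h
    have h3 := hgind _ _ h
    apply hne'
    funext i
    have h4 : a' i - b' i = b' i - a' i := congrFun h3 i
    omega
  · rw [hquot]
    have h1 : (P a' : k) / (P b' : k) - 1 = ((P a' - P b' : 𝓞 k) : k) / (P b' : k) := by
      push_cast
      rw [sub_div, div_self (hPne b')]
    rw [h1, map_div₀, hPw b' w₀ hw₀, div_one]
    exact place_le_of_mem_pow w₀ m _ hsub
  · intro w hw
    exact ⟨hPw _ w hw, hPw _ w hw⟩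
  · intro w
    rcases hg4 w with h | ⟨i₀, h⟩
    · left
      rw [hr, hPval]
      exact Finset.prod_eq_one fun i _ => by rw [h i, one_pow]
    · rcases le_total (a' i₀) (b' i₀) with hle | hle
      · left
        rw [hr, hPval]
        refine Finset.prod_eq_one fun i _ => ?_
        by_cases hi : i = i₀
        · subst hi
          rw [Nat.sub_eq_zero_of_le hle, pow_zero]
        · rw [h i hi, one_pow]
      · right
        rw [hs, hPval]
        refine Finset.prod_eq_one fun i _ => ?_
        by_cases hi : i = i₀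
        · subst hi
          rw [Nat.sub_eq_zero_of_le hle, pow_zero]
        · rw [h i hi, one_pow]
  · rw [hquot]
    have h1 : (P a' : k) / (P b' : k) = ∏ i, (g i : k) ^ ((a' i : ℤ) - (b' i : ℤ)) := by
      rw [hP]
      push_cast
      rw [← Finset.prod_div_distrib]
      refine Finset.prod_congr rfl fun i _ => ?_
      have hgi : (g i : k) ≠ 0 := by simpa using hg0 i
      rw [zpow_sub₀ hgi, zpow_natCast, zpow_natCast]
    rw [h1]
    refine (logHeight₁_prod_le _ _).trans ?_
    rw [Finset.sum_mul]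
    refine Finset.sum_le_sum fun i _ => ?_
    rw [logHeight₁_zpow, mul_comm]
    refine mul_le_mul_of_nonneg_left ?_ (zero_le_logHeight₁ _)
    refine le_trans ?_ hAX
    have ha := (a i).2
    have hb := (b i).2
    have : ((a' i : ℤ) - (b' i : ℤ)).natAbs ≤ A := by
      simp only [ha', hb']
      omega
    exact_mod_cast this

end Pool.Agent.Helper53.SE
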